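import Mathlib
import Pool.Agent.Lib.Pd7404b.Gauss

open MeasureTheory Module Filter Topology Set
open scoped RealInnerProductSpace

namespace Pool.Agent.Lib.P34eea4

open Pool.Agent.Lib.Pd7404b

set_option linter.unusedSectionVars false

/-- Gaussian sums over `ℤ^ι`. -/
lemma summable_gauss_int (ι : Type*) [Fintype ι] {c : ℝ} (hc : 0 < c) :
    Summable fun k : ι → ℤ => Real.exp (-c * ∑ i, (k i : ℝ) ^ 2) := by
  classical
  let b : Basis ι ℝ (EuclideanSpace ℝ ι) := (EuclideanSpace.basisFun ι ℝ).toBasis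
  have h := summable_pow_mul_exp (Submodule.span ℤ (Set.range b)) 0 hc
  simp only [pow_zero, one_mul] at h
  let e : (ι → ℤ) ≃ (Submodule.span ℤ (Set.range b)) :=
    (b.restrictScalars ℤ).equivFun.symm.toEquiv
  have h2 := (e.summable_iff (f := fun v : (Submodule.span ℤ (Set.range b)) =>
    Real.exp (-c * ‖(v : EuclideanSpace ℝ ι)‖ ^ 2))).mpr h
  refine h2.congr fun k => ?_
  simp only [Function.comp_apply]
  congr 2
  have h3 : ((e k : (Submodule.span ℤ (Set.range b))) : EuclideanSpace ℝ ι) =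
      ∑ i, k i • b i := by
    have : e k = ∑ i, k i • (b.restrictScalars ℤ) i := (b.restrictScalars ℤ).equivFun_symm_apply k
    rw [this]
    simp
  rw [h3, EuclideanSpace.norm_sq_eq]
  refine Finset.sum_congr rfl fun i _ => ?_
  have h4 : (∑ j, k j • b j : EuclideanSpace ℝ ι) i = (k i : ℝ) := by
    simp [b, EuclideanSpace.basisFun_apply, Finset.sum_apply, Pi.single_apply]
  rw [h4, Real.norm_eq_abs, sq_abs]

variable {V : Type*} [NormedAddCommGroup V] [InnerProductSpace ℝ V] [FiniteDimensional ℝ V]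
variable (L : Submodule ℤ V) [DiscreteTopology L]
variable [MeasurableSpace V] [BorelSpace V]

/-- Poisson summation for Gaussians over a general lattice. -/
theorem poisson_gauss_general {ι : Type*} [Fintype ι] [IsZLattice ℝ L] (b0 : Basis ι ℤ L) :
    ∃ C : ℝ, 0 < C ∧ ∃ w : (ι → ℤ) → V, (∀ k i, ⟪w k, (b0 i : V)⟫ = k i) ∧
      ∀ a : ℂ, 0 < a.re → ∀ y : V,
      HasSum (fun k : ι → ℤ => (C : ℂ) * (1 / a) ^ ((finrank ℝ V : ℂ) / 2) *
        Complex.exp (-(Real.pi * (1 / a)) * ‖w k‖ ^ 2 +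
          2 * Real.pi * Complex.I * ⟪w k, y⟫))
        (∑' v : L, Complex.exp (-(Real.pi * a) * ‖y + (v : V)‖ ^ 2)) := by
  classical
  set b : Basis ι ℝ V := b0.ofZLatticeBasis ℝ L with hb
  let φ : (ι → ℝ) ≃ₗ[ℝ] V := b.equivFun.symm
  have hφ : ∀ t : ι → ℝ, φ t = ∑ i, t i • b i := fun t => b.equivFun_symm_apply t
  let φc : (ι → ℝ) ≃L[ℝ] V := φ.toContinuousLinearEquiv
  have hmeas : MeasurableEmbedding φc := φc.toHomeomorph.measurableEmbedding
  have : (Measure.map φc volume).IsAddHaarMeasure := φc.isAddHaarMeasure_map volume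
  set c : NNReal := Measure.addHaarScalarFactor (Measure.map φc (volume : Measure (ι → ℝ)))
    (volume : Measure V) with hcdef
  have hc : Measure.map φc (volume : Measure (ι → ℝ)) = c • (volume : Measure V) :=
    Measure.isAddLeftInvariant_eq_smul _ _
  have hint : ∀ g : V → ℂ, ∫ t, g (φ t) = (c : ℝ) • ∫ u, g u := by
    intro g
    have h1 : ∫ u, g u ∂(Measure.map φc volume) = ∫ t, g (φc t) := hmeas.integral_map g
    rw [hc, integral_smul_nnreal_measure] at h1
    exact h1.symm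
  have hC : 0 < (c : ℝ) := by
    have := Measure.addHaarScalarFactor_pos_of_isAddHaarMeasure
      (Measure.map φc (volume : Measure (ι → ℝ))) (volume : Measure V)
    exact_mod_cast this
  let ℓ : (ι → ℤ) → (V →L[ℝ] ℝ) := fun k =>
    LinearMap.toContinuousLinearMap (b.constr ℝ (fun i => (k i : ℝ)))
  let w : (ι → ℤ) → V := fun k => (InnerProductSpace.toDual ℝ V).symm (ℓ k)
  have hw : ∀ k i, ⟪w k, b i⟫ = k i := by
    intro k i
    simp only [w, InnerProductSpace.toDual_symm_apply, ℓ]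
    simp
  have hbb : ∀ i, (b i : V) = (b0 i : V) := by
    intro i
    rw [hb, Basis.ofZLatticeBasis_apply]
  have hwφ : ∀ k t, ⟪w k, φ t⟫ = ∑ i, (k i : ℝ) * t i := by
    intro k t
    rw [hφ, inner_sum]
    refine Finset.sum_congr rfl fun i _ => ?_
    rw [inner_smul_right, hw, mul_comm]
  let eL : (ι → ℤ) ≃ L := b0.equivFun.symm.toEquiv
  have heL : ∀ m : ι → ℤ, ((eL m : L) : V) = φ (toR m) := by
    intro m
    have : eL m = ∑ i, m i • b0 i := b0.equivFun_symm_apply m
    rw [this, hφ]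
    push_cast
    refine Finset.sum_congr rfl fun i _ => ?_
    rw [hb, Basis.ofZLatticeBasis_apply, toR_apply]
    exact (Int.cast_smul_eq_zsmul ℝ (m i) (b0 i : V)).symm
  refine ⟨c, hC, w, fun k i => by rw [← hbb, hw], fun a ha y => ?_⟩
  have ha0 : a ≠ 0 := by rintro rfl; simp at ha
  have hare : 0 < (1 / a).re := by
    rw [one_div, Complex.inv_re]
    exact div_pos ha (Complex.normSq_pos.mpr ha0)
  have hpia : 0 < ((Real.pi : ℂ) * a).re := by
    rw [Complex.re_ofReal_mul]; positivity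
  let G : (ι → ℝ) → ℂ := fun t => Complex.exp (-(Real.pi * a) * ‖φ t‖ ^ 2)
  have hGV : Integrable (fun u : V => Complex.exp (-(Real.pi * a) * ‖u‖ ^ 2)) := by
    have := GaussianFourier.integrable_cexp_neg_mul_sq_norm_add hpia 0 (0 : V)
    simpa using this
  have hG : Integrable G := by
    have h1 : Integrable (fun u : V => Complex.exp (-(Real.pi * a) * ‖u‖ ^ 2))
        (Measure.map φc volume) := by
      rw [hc]; exact hGV.smul_measure_nnreal
    exact (hmeas.integrable_map_iff).mp h1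
  have hperiod : ∀ t : ι → ℝ, ∑' m : ι → ℤ, G (t + toR m) =
      ∑' v : L, Complex.exp (-(Real.pi * a) * ‖φ t + (v : V)‖ ^ 2) := by
    intro t
    rw [← eL.tsum_eq]
    refine tsum_congr fun m => ?_
    rw [heL]
    simp only [G, map_add]
  have hcont : Continuous fun t : ι → ℝ => ∑' m : ι → ℤ, G (t + toR m) := by
    simp_rw [hperiod]
    exact (continuous_gauss_tsum L ha).comp φc.continuous
  have hcoef : ∀ k : ι → ℤ, ∫ t, chi (-k) t * G t = (c : ℝ) * (1 / a) ^ ((finrank ℝ V : ℂ) / 2) *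
      Complex.exp (-(Real.pi * (1 / a)) * ‖w k‖ ^ 2) := by
    intro k
    have h1 : ∀ t, chi (-k) t * G t = Complex.exp (-(Real.pi * a) * ‖φ t‖ ^ 2 +
        (-(2 * Real.pi * Complex.I)) * ⟪w k, φ t⟫) := by
      intro t
      simp only [chi, G]
      rw [← Complex.exp_add, hwφ]
      congr 1
      push_cast
      simp only [Pi.neg_apply, Int.cast_neg, neg_mul, Finset.sum_neg_distrib]
      ring
    simp_rw [h1]
    rw [hint (fun u => Complex.exp (-(Real.pi * a) * ‖u‖ ^ 2 +
        (-(2 * Real.pi * Complex.I)) * ⟪w k, u⟫))]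
    rw [GaussianFourier.integral_cexp_neg_mul_sq_norm_add hpia]
    have hpi : (Real.pi : ℂ) ≠ 0 := by exact_mod_cast Real.pi_ne_zero
    have h2 : (Real.pi : ℂ) / (Real.pi * a) = 1 / a := by field_simp
    have h3 : (-(2 * Real.pi * Complex.I)) ^ 2 * (‖w k‖ : ℂ) ^ 2 / (4 * (Real.pi * a))
        = -(Real.pi * (1 / a)) * ‖w k‖ ^ 2 := by
      field_simp
      ring_nf
      simp only [Complex.I_sq]
      ring
    rw [h2, h3, Complex.real_smul, mul_assoc]
  -- summability of the dual Gaussian sum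
  have hsummW : Summable fun k : ι → ℤ => Complex.exp (-(Real.pi * (1 / a)) * ‖w k‖ ^ 2) := by
    apply Summable.of_norm
    set B : ℝ := ∑ i, ‖b i‖ ^ 2 + 1 with hB
    have hBpos : 0 < B := by positivity
    have hcc : 0 < Real.pi * (1 / a).re / (B * (Fintype.card ι + 1)) := by positivity
    refine Summable.of_nonneg_of_le (fun k => norm_nonneg _) (fun k => ?_)
      (summable_gauss_int ι hcc)
    rw [norm_gauss]
    apply Real.exp_le_exp.mpr
    have h1 : ∀ i, (k i : ℝ) ^ 2 ≤ ‖w k‖ ^ 2 * B := by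
      intro i
      have h2 : |(k i : ℝ)| ≤ ‖w k‖ * ‖b i‖ := by
        rw [← hw k i]
        exact abs_real_inner_le_norm _ _
      have h3 : (k i : ℝ) ^ 2 ≤ ‖w k‖ ^ 2 * ‖b i‖ ^ 2 := by
        rw [← mul_pow, ← sq_abs]
        exact pow_le_pow_left₀ (abs_nonneg _) h2 2
      have h4 : ‖b i‖ ^ 2 ≤ B := by
        have h41 : ‖b i‖ ^ 2 ≤ ∑ j, ‖b j‖ ^ 2 :=
          Finset.single_le_sum (f := fun i => ‖b i‖ ^ 2) (fun j _ => sq_nonneg _)
            (Finset.mem_univ i)
        linarith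
      exact h3.trans (mul_le_mul_of_nonneg_left h4 (sq_nonneg _))
    have h5 : ∑ i, (k i : ℝ) ^ 2 ≤ (Fintype.card ι + 1) * (‖w k‖ ^ 2 * B) := by
      have h6 : ∑ i, (k i : ℝ) ^ 2 ≤ ∑ _i : ι, ‖w k‖ ^ 2 * B := Finset.sum_le_sum fun i _ => h1 i
      rw [Finset.sum_const, nsmul_eq_mul, Finset.card_univ] at h6
      have h7 : 0 ≤ ‖w k‖ ^ 2 * B := by positivity
      linarith
    have h8 : Real.pi * (1 / a).re / (B * (Fintype.card ι + 1)) * ∑ i, (k i : ℝ) ^ 2 ≤
        Real.pi * (1 / a).re * ‖w k‖ ^ 2 := by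
      calc _ ≤ Real.pi * (1 / a).re / (B * (Fintype.card ι + 1)) *
            ((Fintype.card ι + 1) * (‖w k‖ ^ 2 * B)) := mul_le_mul_of_nonneg_left h5 hcc.le
        _ = _ := by field_simp
    linarith
  have hsum : Summable fun k : ι → ℤ => ∫ t, chi (-k) t * G t := by
    simp_rw [hcoef]
    exact hsummW.mul_left _
  have hmain := poisson_pi hG hcont hsum (φ.symm y)
  rw [hperiod] at hmain
  have hyy : φ (φ.symm y) = y := φ.apply_symm_apply y
  rw [hyy] at hmain
  have hfun : (fun k : ι → ℤ => ((c : ℝ) : ℂ) * (1 / a) ^ ((finrank ℝ V : ℂ) / 2) *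
        Complex.exp (-(Real.pi * (1 / a)) * ‖w k‖ ^ 2 +
          2 * Real.pi * Complex.I * ⟪w k, y⟫)) =
      fun k : ι → ℤ => (∫ t, chi (-k) t * G t) * chi k (φ.symm y) := by
    funext k
    rw [hcoef, Complex.exp_add, ← mul_assoc]
    congr 1
    have h5 : ⟪w k, y⟫ = ∑ i, (k i : ℝ) * (φ.symm y) i := by
      rw [← hwφ, LinearEquiv.apply_symm_apply]
    rw [h5]
    simp only [chi]
    congr 1
    push_cast
    ring
  rw [hfun]
  exact hmain

end Pool.Agent.Lib.P34eea4
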