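import Mathlib

open MeasureTheory Set

namespace Pool.Agent.Lib.P34eea4

lemma lintegral_gamma {s r : ℝ} (hs : 0 < s) (hr : 0 < r) :
    ∫⁻ t in Ioi (0 : ℝ), ENNReal.ofReal (t ^ (s - 1) * Real.exp (-(r * t))) =
      ENNReal.ofReal ((1 / r) ^ s * Real.Gamma s) := by
  have hI := Real.integral_rpow_mul_exp_neg_mul_Ioi hs hr
  have hpos : 0 < (1 / r) ^ s * Real.Gamma s := by
    have := Real.Gamma_pos_of_pos hs
    positivity
  have hint : Integrable (fun t : ℝ => t ^ (s - 1) * Real.exp (-(r * t)))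
      (volume.restrict (Ioi 0)) := by
    by_contra hcon
    rw [integral_undef hcon] at hI
    exact hpos.ne hI
  rw [← hI, ofReal_integral_eq_lintegral_ofReal hint]
  refine (ae_restrict_iff' measurableSet_Ioi).mpr (Filter.Eventually.of_forall fun t ht => ?_)
  have : (0 : ℝ) < t := ht
  simp only [Pi.zero_apply]
  positivity

lemma mellin_tsum {I : Type*} [Countable I] {f : I → ℝ} (hf : ∀ i, 0 < f i) {s : ℝ} (hs : 0 < s) :
    ∫⁻ t in Ioi (0 : ℝ), ∑' i, ENNReal.ofReal (t ^ (s - 1) * Real.exp (-(f i * t))) =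
      ∑' i, ENNReal.ofReal ((1 / f i) ^ s * Real.Gamma s) := by
  rw [lintegral_tsum]
  · exact tsum_congr fun i => lintegral_gamma hs (hf i)
  · intro i
    refine AEMeasurable.ennreal_ofReal (Measurable.aemeasurable ?_)
    fun_prop

lemma tsum_ofReal_kernel {I : Type*} {f : I → ℝ} {s t : ℝ} (ht : 0 < t)
    (h : Summable fun i => Real.exp (-(f i * t))) :
    ∑' i, ENNReal.ofReal (t ^ (s - 1) * Real.exp (-(f i * t))) =
      ENNReal.ofReal (t ^ (s - 1) * ∑' i, Real.exp (-(f i * t))) := by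
  rw [← tsum_mul_left, ENNReal.ofReal_tsum_of_nonneg]
  · intro i; positivity
  · exact h.mul_left _

/-- Comparison of Dirichlet-type sums through the Mellin transform, strict version. -/
theorem mellin_lt {I J : Type*} [Countable I] [Countable J] {f : I → ℝ} {g : J → ℝ}
    (hf : ∀ i, 0 < f i) (hg : ∀ j, 0 < g j) {s : ℝ} (hs : 0 < s)
    (hfs : Summable fun i => (1 / f i) ^ s) (hgs : Summable fun j => (1 / g j) ^ s)
    (hsf : ∀ t : ℝ, 0 < t → Summable fun i => Real.exp (-(f i * t)))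
    (hsg : ∀ t : ℝ, 0 < t → Summable fun j => Real.exp (-(g j * t)))
    (hlt : ∀ t : ℝ, 0 < t → ∑' i, Real.exp (-(f i * t)) < ∑' j, Real.exp (-(g j * t))) :
    ∑' i, (1 / f i) ^ s < ∑' j, (1 / g j) ^ s := by
  have hΓ := Real.Gamma_pos_of_pos hs
  have h1 : ∑' i, ENNReal.ofReal ((1 / f i) ^ s * Real.Gamma s) =
      ENNReal.ofReal ((∑' i, (1 / f i) ^ s) * Real.Gamma s) := by
    rw [← tsum_mul_right, ENNReal.ofReal_tsum_of_nonneg]
    · intro i
      have := hf i
      positivity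
    · exact hfs.mul_right _
  have h2 : ∑' j, ENNReal.ofReal ((1 / g j) ^ s * Real.Gamma s) =
      ENNReal.ofReal ((∑' j, (1 / g j) ^ s) * Real.Gamma s) := by
    rw [← tsum_mul_right, ENNReal.ofReal_tsum_of_nonneg]
    · intro j
      have := hg j
      positivity
    · exact hgs.mul_right _
  have hmu : (volume.restrict (Ioi (0 : ℝ))) ≠ 0 := by
    intro h
    have := congrArg (fun μ : Measure ℝ => μ univ) h
    simp at this
  have key : ∫⁻ t in Ioi (0 : ℝ), ∑' i, ENNReal.ofReal (t ^ (s - 1) * Real.exp (-(f i * t))) <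
      ∫⁻ t in Ioi (0 : ℝ), ∑' j, ENNReal.ofReal (t ^ (s - 1) * Real.exp (-(g j * t))) := by
    refine lintegral_strict_mono hmu ?_ ?_ ?_
    · refine Measurable.aemeasurable (Measurable.ennreal_tsum fun j => ?_)
      refine Measurable.ennreal_ofReal ?_
      fun_prop
    · rw [mellin_tsum hf hs, h1]
      exact ENNReal.ofReal_ne_top
    · refine (ae_restrict_iff' measurableSet_Ioi).mpr (Filter.Eventually.of_forall fun t ht => ?_)
      have ht' : (0 : ℝ) < t := ht
      rw [tsum_ofReal_kernel ht' (hsf t ht'), tsum_ofReal_kernel ht' (hsg t ht')]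
      have hp : 0 < t ^ (s - 1) := by positivity
      have hnn : 0 ≤ ∑' i, Real.exp (-(f i * t)) := tsum_nonneg fun i => (Real.exp_pos _).le
      refine (ENNReal.ofReal_lt_ofReal_iff ?_).mpr (mul_lt_mul_of_pos_left (hlt t ht') hp)
      exact mul_pos hp (hnn.trans_lt (hlt t ht'))
  rw [mellin_tsum hf hs, mellin_tsum hg hs, h1, h2] at key
  have h3 : 0 ≤ (∑' i, (1 / f i) ^ s) * Real.Gamma s :=
    mul_nonneg (tsum_nonneg fun i => by have := hf i; positivity) hΓ.le
  have h4 : (∑' i, (1 / f i) ^ s) * Real.Gamma s < (∑' j, (1 / g j) ^ s) * Real.Gamma s := by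
    by_contra hcon
    push Not at hcon
    exact absurd key (not_lt.mpr (ENNReal.ofReal_le_ofReal hcon))
  exact lt_of_mul_lt_mul_right h4 hΓ.le

end Pool.Agent.Lib.P34eea4
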