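import Mathlib
import Pool.Agent.Lib.P34eea4.PoissonGen

open MeasureTheory Module Filter Topology Set
open scoped RealInnerProductSpace

namespace Pool.Agent.Lib.P34eea4

open Pool.Agent.Lib.Pd7404b

variable {V : Type*} [NormedAddCommGroup V] [InnerProductSpace ℝ V] [FiniteDimensional ℝ V]
variable (L : Submodule ℤ V) [DiscreteTopology L]

lemma summable_gauss_real {c : ℝ} (hc : 0 < c) (y : V) :
    Summable fun v : L => Real.exp (-c * ‖y + (v : V)‖ ^ 2) := by
  have ha : 0 < (((c / Real.pi : ℝ) : ℂ)).re := by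
    rw [Complex.ofReal_re]; positivity
  have h := (summable_gauss L ha y).norm
  refine h.congr fun v => ?_
  rw [norm_gauss, Complex.ofReal_re]
  congr 2
  field_simp

/-- Real form of the Gaussian Poisson formula: the Gaussian sum over a translate is a
cosine series with positive coefficients. -/
theorem gauss_cos [IsZLattice ℝ L] {c : ℝ} (hc : 0 < c) :
    ∃ (n : ℕ) (K : (Fin n → ℤ) → ℝ) (w : (Fin n → ℤ) → V), (∀ k, 0 < K k) ∧
      (∀ y : V, HasSum (fun k => K k * Real.cos (2 * Real.pi * ⟪w k, y⟫))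
        (∑' v : L, Real.exp (-c * ‖y + (v : V)‖ ^ 2))) ∧
      (∀ y : V, (∀ k, ∃ m : ℤ, ⟪w k, y⟫ = m) → y ∈ L) := by
  classical
  let _ : MeasurableSpace V := borel V
  have : BorelSpace V := ⟨rfl⟩
  have : Module.Finite ℤ L := ZLattice.module_finite ℝ L
  have : Module.Free ℤ L := ZLattice.module_free ℝ L
  let b0 : Basis (Fin (finrank ℤ L)) ℤ L := Module.finBasis ℤ L
  obtain ⟨C, hC, w, hw, hP⟩ := poisson_gauss_general L b0
  have hcπ : 0 < c / Real.pi := by positivity
  have hπc : 0 < Real.pi / c := by positivity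
  let K : (Fin (finrank ℤ L) → ℤ) → ℝ := fun k =>
    C * (Real.pi / c) ^ ((finrank ℝ V : ℝ) / 2) * Real.exp (-(Real.pi * (Real.pi / c)) * ‖w k‖ ^ 2)
  refine ⟨finrank ℤ L, K, w, fun k => by positivity, fun y => ?_, fun y hy => ?_⟩
  · have ha : 0 < (((c / Real.pi : ℝ) : ℂ)).re := by
      rw [Complex.ofReal_re]; exact hcπ
    have h := Complex.reCLM.hasSum (hP _ ha y)
    have hinv : (1 / ((c / Real.pi : ℝ) : ℂ)) = ((Real.pi / c : ℝ) : ℂ) := by
      rw [← Complex.ofReal_one, ← Complex.ofReal_div]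
      congr 1
      field_simp
    have hfun : (fun k => K k * Real.cos (2 * Real.pi * ⟪w k, y⟫)) =
        (fun k : Fin (finrank ℤ L) → ℤ => Complex.reCLM ((C : ℂ) *
          (1 / ((c / Real.pi : ℝ) : ℂ)) ^ ((finrank ℝ V : ℂ) / 2) *
          Complex.exp (-(Real.pi * (1 / ((c / Real.pi : ℝ) : ℂ))) * ‖w k‖ ^ 2 +
          2 * Real.pi * Complex.I * ⟪w k, y⟫))) := by
      funext k
      simp only [Complex.reCLM_apply]
      rw [hinv]
      have h1 : (((Real.pi / c : ℝ) : ℂ)) ^ ((finrank ℝ V : ℂ) / 2) =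
          (((Real.pi / c) ^ ((finrank ℝ V : ℝ) / 2) : ℝ) : ℂ) := by
        rw [Complex.ofReal_cpow hπc.le]
        push_cast
        rfl
      rw [h1, ← Complex.ofReal_mul, Complex.re_ofReal_mul, Complex.exp_re]
      have h2 : (-(Real.pi * ((Real.pi / c : ℝ) : ℂ)) * (‖w k‖ : ℂ) ^ 2 +
          2 * Real.pi * Complex.I * (⟪w k, y⟫ : ℂ)) =
          ((-(Real.pi * (Real.pi / c)) * ‖w k‖ ^ 2 : ℝ) : ℂ) +
          ((2 * Real.pi * ⟪w k, y⟫ : ℝ) : ℂ) * Complex.I := by
        push_cast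
        ring
      rw [h2]
      simp only [K, Complex.add_re, Complex.ofReal_re, Complex.add_im, Complex.ofReal_im,
        Complex.re_ofReal_mul, Complex.im_ofReal_mul, Complex.I_re, Complex.I_im, mul_zero,
        add_zero, mul_one, zero_add]
      ring
    rw [hfun]
    convert h using 1
    rw [Complex.reCLM_apply, ← Complex.reCLM_apply, Complex.reCLM.map_tsum (summable_gauss L ha y)]
    refine tsum_congr fun v => ?_
    rw [Complex.reCLM_apply]
    have h3 : (-(Real.pi * ((c / Real.pi : ℝ) : ℂ)) * (‖y + (v : V)‖ : ℂ) ^ 2) =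
        ((-c * ‖y + (v : V)‖ ^ 2 : ℝ) : ℂ) := by
      have : Real.pi * (c / Real.pi) = c := by field_simp
      rw [← Complex.ofReal_mul, this]
      push_cast
      ring
    rw [h3, Complex.exp_ofReal_re]
  · set b : Basis (Fin (finrank ℤ L)) ℝ V := b0.ofZLatticeBasis ℝ L with hb
    have hbb : ∀ i, (b i : V) = (b0 i : V) := by
      intro i
      rw [hb, Basis.ofZLatticeBasis_apply]
    choose m hm using hy
    -- `y = ∑ i, ⟪w (Pi.single i 1), y⟫ b_i`
    have hy2 : y = ∑ i, (m (Pi.single i 1)) • (b0 i : V) := by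
      have h1 : ∀ i, b.repr y i = ⟪w (Pi.single i 1), y⟫ := by
        intro i
        conv_rhs => rw [← b.sum_repr y, inner_sum]
        rw [Finset.sum_eq_single i]
        · rw [inner_smul_right, hbb, hw]; simp
        · intro j _ hj
          rw [inner_smul_right, hbb, hw]
          simp [hj]
        · simp
      conv_lhs => rw [← b.sum_repr y]
      refine Finset.sum_congr rfl fun i _ => ?_
      rw [h1, hm, hbb]
      exact Int.cast_smul_eq_zsmul ℝ _ _
    rw [hy2]
    exact Submodule.sum_mem _ fun i _ => Submodule.smul_mem _ _ (b0 i).2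

theorem gauss_ineq [IsZLattice ℝ L] {c : ℝ} (hc : 0 < c) (y : V) :
    ∑' v : L, Real.exp (-c * ‖y + (v : V)‖ ^ 2) ≤ ∑' v : L, Real.exp (-c * ‖(v : V)‖ ^ 2) := by
  obtain ⟨n, K, w, hK, hS, -⟩ := gauss_cos L hc
  have h0 := hS 0
  simp only [inner_zero_right, mul_zero, Real.cos_zero, mul_one, zero_add] at h0
  exact hasSum_le (fun k => mul_le_of_le_one_right (hK k).le (Real.cos_le_one _)) (hS y) h0

theorem gauss_ineq_strict [IsZLattice ℝ L] {c : ℝ} (hc : 0 < c) {y : V} (hy : y ∉ L) :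
    ∑' v : L, Real.exp (-c * ‖y + (v : V)‖ ^ 2) < ∑' v : L, Real.exp (-c * ‖(v : V)‖ ^ 2) := by
  obtain ⟨n, K, w, hK, hS, hint⟩ := gauss_cos L hc
  have h0 := hS 0
  simp only [inner_zero_right, mul_zero, Real.cos_zero, mul_one, zero_add] at h0
  have hex : ∃ k, ¬ ∃ m : ℤ, ⟪w k, y⟫ = m := by
    by_contra hcon
    push Not at hcon
    exact hy (hint y hcon)
  obtain ⟨k, hk⟩ := hex
  refine hasSum_lt (i := k) (fun k => mul_le_of_le_one_right (hK k).le (Real.cos_le_one _)) ?_
    (hS y) h0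
  have hcos : Real.cos (2 * Real.pi * ⟪w k, y⟫) < 1 := by
    refine lt_of_le_of_ne (Real.cos_le_one _) fun h => hk ?_
    obtain ⟨m, hm⟩ := (Real.cos_eq_one_iff _).mp h
    refine ⟨m, ?_⟩
    have hpi := Real.pi_pos
    have : (m : ℝ) * (2 * Real.pi) = ⟪w k, y⟫ * (2 * Real.pi) := by rw [hm]; ring
    exact (mul_right_cancel₀ (by positivity) this).symm
  have := mul_lt_mul_of_pos_left hcos (hK k)
  simpa using this

end Pool.Agent.Lib.P34eea4
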