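import Mathlib
import Pool.Agent.Lib.P34eea4.GaussIneq
import Pool.Agent.Lib.P34eea4.Mellin

open MeasureTheory Module Filter Topology Set
open scoped RealInnerProductSpace

namespace Pool.Agent.Lib.P34eea4

variable {V : Type*} [NormedAddCommGroup V] [InnerProductSpace ℝ V] [FiniteDimensional ℝ V]
variable (L : Submodule ℤ V) [DiscreteTopology L] [IsZLattice ℝ L]

section

variable {C : Type*} (y : C → V) (ρ : C → ℝ)

lemma core_summable (hρs : ∀ t : ℝ, 0 < t → Summable fun c => Real.exp (-(t * ρ c)))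
    {t : ℝ} (ht : 0 < t) :
    Summable fun x : C × L => Real.exp (-(t * (‖y x.1 + (x.2 : V)‖ ^ 2 + ρ x.1))) := by
  rw [summable_prod_of_nonneg (fun x => (Real.exp_pos _).le)]
  have h1 : ∀ c : C, ∀ a : L, Real.exp (-(t * (‖y c + (a : V)‖ ^ 2 + ρ c))) =
      Real.exp (-(t * ρ c)) * Real.exp (-t * ‖y c + (a : V)‖ ^ 2) := by
    intro c a
    rw [← Real.exp_add]
    ring_nf
  refine ⟨fun c => ?_, ?_⟩
  · simp only [h1]
    exact (summable_gauss_real L ht (y c)).mul_left _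
  · simp only [h1, tsum_mul_left]
    refine Summable.of_nonneg_of_le (fun c => ?_) (fun c => ?_)
      ((hρs t ht).mul_right (∑' a : L, Real.exp (-t * ‖(a : V)‖ ^ 2)))
    · exact mul_nonneg (Real.exp_pos _).le (tsum_nonneg fun a => (Real.exp_pos _).le)
    · exact mul_le_mul_of_nonneg_left (gauss_ineq L ht (y c)) (Real.exp_pos _).le

lemma core_lt (hρs : ∀ t : ℝ, 0 < t → Summable fun c => Real.exp (-(t * ρ c)))
    (hy : ∃ c, y c ∉ L) {t : ℝ} (ht : 0 < t) :
    ∑' x : C × L, Real.exp (-(t * (‖y x.1 + (x.2 : V)‖ ^ 2 + ρ x.1))) <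
    ∑' x : C × L, Real.exp (-(t * (‖(x.2 : V)‖ ^ 2 + ρ x.1))) := by
  have hs1 := core_summable L y ρ hρs ht
  have hs2 := core_summable L (fun _ => 0) ρ hρs ht
  simp only [zero_add] at hs2
  have h1 : ∀ c : C, ∀ a : L, Real.exp (-(t * (‖y c + (a : V)‖ ^ 2 + ρ c))) =
      Real.exp (-(t * ρ c)) * Real.exp (-t * ‖y c + (a : V)‖ ^ 2) := by
    intro c a
    rw [← Real.exp_add]
    ring_nf
  have h2 : ∀ c : C, ∀ a : L, Real.exp (-(t * (‖(a : V)‖ ^ 2 + ρ c))) =
      Real.exp (-(t * ρ c)) * Real.exp (-t * ‖(a : V)‖ ^ 2) := by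
    intro c a
    rw [← Real.exp_add]
    ring_nf
  have e1 := hs1.tsum_prod' (fun c => by
    simp only [h1]; exact (summable_gauss_real L ht (y c)).mul_left _)
  have e2 := hs2.tsum_prod' (fun c => by
    simp only [h2]
    have := summable_gauss_real L ht 0
    simp only [zero_add] at this
    exact this.mul_left _)
  rw [e1, e2]
  obtain ⟨c, hc⟩ := hy
  have hs1' := ((summable_prod_of_nonneg (fun x => (Real.exp_pos _).le)).mp hs1).2
  have hs2' := ((summable_prod_of_nonneg (fun x => (Real.exp_pos _).le)).mp hs2).2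
  refine Summable.tsum_lt_tsum (i := c) (fun c => ?_) ?_ hs1' hs2'
  · simp only [h1, h2, tsum_mul_left]
    exact mul_le_mul_of_nonneg_left (gauss_ineq L ht (y c)) (Real.exp_pos _).le
  · simp only [h1, h2, tsum_mul_left]
    exact mul_lt_mul_of_pos_left (gauss_ineq_strict L ht hc) (Real.exp_pos _)

end

/-- removing one point from a convergent sum -/
lemma tsum_ne_eq {X : Type*} (x0 : X) {F : X → ℝ} (hF : Summable F) :
    ∑' x : {x : X // x ≠ x0}, F x = ∑' x, F x - F x0 := by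
  classical
  have h := hF.tsum_subtype_add_tsum_subtype_compl {x0}
  have h1 : ∑' x : ({x0} : Set X), F x = F x0 := by
    rw [tsum_singleton x0 F]
  have h2 : ∑' x : {x : X // x ≠ x0}, F x = ∑' x : (({x0} : Set X)ᶜ : Set X), F x := rfl
  rw [h2, ← h, h1]
  ring

/-- **Core comparison.** -/
theorem core_zeta {C : Type*} [Countable C] (y : C → V) (ρ : C → ℝ) (c0 : C)
    (hy0 : y c0 = 0) (hρ0 : ρ c0 = 0) (hρ : ∀ c, c ≠ c0 → 0 < ρ c)
    (hρs : ∀ t : ℝ, 0 < t → Summable fun c => Real.exp (-(t * ρ c)))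
    (hy : ∃ c, y c ∉ L) {s : ℝ} (hs : 0 < s)
    (hs1 : Summable fun x : {x : C × L // x ≠ (c0, 0)} =>
      (1 / (‖y x.1.1 + (x.1.2 : V)‖ ^ 2 + ρ x.1.1)) ^ s)
    (hs2 : Summable fun x : {x : C × L // x ≠ (c0, 0)} =>
      (1 / (‖(x.1.2 : V)‖ ^ 2 + ρ x.1.1)) ^ s) :
    ∑' x : {x : C × L // x ≠ (c0, 0)}, (1 / (‖y x.1.1 + (x.1.2 : V)‖ ^ 2 + ρ x.1.1)) ^ s <
    ∑' x : {x : C × L // x ≠ (c0, 0)}, (1 / (‖(x.1.2 : V)‖ ^ 2 + ρ x.1.1)) ^ s := by
  have hpos : ∀ z : C → V, z c0 = 0 → ∀ x : {x : C × L // x ≠ (c0, 0)},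
      0 < ‖z x.1.1 + (x.1.2 : V)‖ ^ 2 + ρ x.1.1 := by
    intro z hz x
    by_cases hc : x.1.1 = c0
    · have ha : x.1.2 ≠ 0 := fun h => x.2 (Prod.ext hc h)
      have ha' : (x.1.2 : V) ≠ 0 := by
        intro h
        exact ha (Subtype.ext h)
      rw [hc, hz, hρ0, zero_add, add_zero]
      have := norm_pos_iff.mpr ha'
      positivity
    · have := hρ _ hc
      positivity
  have hsum1 := fun t ht => core_summable L y ρ hρs (t := t) ht
  have hsum2 := fun t ht => core_summable L (fun _ => 0) ρ hρs (t := t) ht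
  simp only [zero_add] at hsum2
  have hpos1 := hpos y hy0
  have hpos2 := hpos (fun _ => 0) rfl
  simp only [zero_add] at hpos2
  refine mellin_lt hpos1 hpos2 hs hs1 hs2 ?_ ?_ ?_
  · intro t ht
    refine ((hsum1 t ht).comp_injective Subtype.val_injective).congr fun x => ?_
    simp only [Function.comp_apply]
    congr 1
    ring
  · intro t ht
    refine ((hsum2 t ht).comp_injective Subtype.val_injective).congr fun x => ?_
    simp only [Function.comp_apply]
    congr 1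
    ring
  · intro t ht
    have hA := tsum_ne_eq ((c0, 0) : C × L) (hsum1 t ht)
    have hB := tsum_ne_eq ((c0, 0) : C × L) (hsum2 t ht)
    have hlt := core_lt L y ρ hρs hy ht
    have e1 : ∑' x : {x : C × L // x ≠ (c0, 0)},
        Real.exp (-((‖y x.1.1 + (x.1.2 : V)‖ ^ 2 + ρ x.1.1) * t)) =
        ∑' x : {x : C × L // x ≠ (c0, 0)},
        Real.exp (-(t * (‖y x.1.1 + (x.1.2 : V)‖ ^ 2 + ρ x.1.1))) :=
      tsum_congr fun x => by rw [mul_comm]
    have e2 : ∑' x : {x : C × L // x ≠ (c0, 0)},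
        Real.exp (-((‖(x.1.2 : V)‖ ^ 2 + ρ x.1.1) * t)) =
        ∑' x : {x : C × L // x ≠ (c0, 0)},
        Real.exp (-(t * (‖(x.1.2 : V)‖ ^ 2 + ρ x.1.1))) :=
      tsum_congr fun x => by rw [mul_comm]
    rw [e1, e2, hA, hB]
    simp only [hy0, hρ0, Submodule.coe_zero, add_zero, norm_zero]
    linarith

end Pool.Agent.Lib.P34eea4
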